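import Pool.Agent.H815.QC.Stm

/-!
# The wall function
-/

set_option autoImplicit false

namespace Pool.Agent.H695.QC

open Pool.Agent.Y110.FJ Pool.Agent.T2H65.GP Pool.Agent.H815.QC Monoid
open Pool.Agent.R701.FreeProd

section free

variable {ι : Type} {M : ι → Type} [∀ i, Group (M i)]

/-- the first letter in the factor `i` -/
noncomputable def fl (i : ι) (k : CoprodI M) : M i := (strip_fst k i).choose

theorem fst_of_mul {i : ι} {c : M i} (hc : c ≠ 1) {k : CoprodI M} (h : fst k ≠ some i) :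
    fst (CoprodI.of c * k) = some i := by
  rw [fst_mul (compat_of h) (of_ne_one hc), fst_of c hc]

theorem fl_eq {i : ι} {k k' : CoprodI M} {c : M i} (h : k = CoprodI.of c * k')
    (h' : fst k' ≠ some i) : fl i k = c := by
  obtain ⟨k'', h1, h2⟩ := (strip_fst k i).choose_spec
  change k = CoprodI.of (fl i k) * k'' at h1
  by_contra hne
  have h3 : c⁻¹ * fl i k ≠ 1 := by
    intro h4
    exact hne (inv_mul_eq_one.1 h4).symm
  apply h'
  have h4 : k' = CoprodI.of (c⁻¹ * fl i k) * k'' := by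
    have h5 : k' = (CoprodI.of c)⁻¹ * k := by
      rw [h, inv_mul_cancel_left]
    rw [h5, map_mul, map_inv, mul_assoc, ← h1]
  rw [h4]
  exact fst_of_mul h3 h2

theorem fl_spec (i : ι) (k : CoprodI M) : ∃ k', k = CoprodI.of (fl i k) * k' ∧ fst k' ≠ some i :=
  (strip_fst k i).choose_spec

theorem fl_mul_of (i : ι) (a : M i) (k : CoprodI M) : fl i (CoprodI.of a * k) = a * fl i k := by
  obtain ⟨k', h1, h2⟩ := fl_spec i k
  apply fl_eq (k' := k') _ h2
  rw [map_mul, mul_assoc, ← h1]

/-- multiplication on the right changes the first letter only in the trivial case -/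
theorem fl_of_mul {i y : ι} (k : CoprodI M) (b : M y) (h : fl i (k * CoprodI.of b) ≠ fl i k) :
    y = i ∧ k = CoprodI.of (fl i k) := by
  obtain ⟨k', h1, h2⟩ := fl_spec i k
  have h3 : fst (k' * CoprodI.of b) = some i := by
    by_contra hcon
    apply h
    apply fl_eq (k' := k' * CoprodI.of b) _ hcon
    rw [← mul_assoc, ← h1]
  by_cases hk : k' = 1
  · rw [hk, one_mul] at h3
    rw [hk, mul_one] at h1
    refine ⟨?_, h1⟩
    by_cases hb : b = 1
    · rw [hb, map_one, fst_one] at h3
      exact absurd h3 (by simp)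
    · rw [fst_of b hb] at h3
      exact Option.some.inj h3
  · exfalso
    obtain ⟨k'', a, g1, g2⟩ := strip k' y
    have h4 : k' * CoprodI.of b = k'' * CoprodI.of (a * b) := by
      rw [g1, mul_assoc, ← map_mul]
    rw [h4] at h3
    by_cases hk'' : k'' = 1
    · rw [hk'', one_mul] at h3 g1
      have ha : a ≠ 1 := by
        intro ha
        apply hk
        rw [g1, ha, map_one]
      rw [g1, fst_of a ha] at h2
      by_cases hab : a * b = 1
      · rw [hab, map_one, fst_one] at h3
        exact absurd h3 (by simp)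
      · rw [fst_of _ hab] at h3
        exact h2 h3
    · rw [fst_mul (compat_of' g2) hk''] at h3
      rw [g1, fst_mul (compat_of' g2) hk''] at h2
      exact h2 h3

end free

/-- **W.** -/
theorem W_proof : S_W := by
  intro V _ Λ w
  refine ⟨fun g => Multiplicative.toAdd
    (fl (M := fun _ : Xv Λ (B2 V) w => Multiplicative ℤ) (x0 Λ (B2 V) w) (Phi Λ (B2 V) w g).left), ?_, ?_, ?_⟩
  · intro M g
    have h1 : (Phi Λ (B2 V) w (gp Λ w M * g)).left =
        ofx (Multiplicative ℤ) _ (x0 Λ (B2 V) w) (Multiplicative.ofAdd M) *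
          (Phi Λ (B2 V) w g).left := by
      rw [map_mul, gp, Phi_self, SemidirectProduct.mul_left, SemidirectProduct.left_inl,
        SemidirectProduct.right_inl, map_one]
      rfl
    show Multiplicative.toAdd (fl (x0 Λ (B2 V) w) (Phi Λ (B2 V) w (gp Λ w M * g)).left) = _
    rw [h1]
    erw [fl_mul_of]
    rfl
  · intro g s j hs
    have h1 : (Phi Λ (B2 V) w (g * gp Λ s j)).left = (Phi Λ (B2 V) w g).left := by
      rw [map_mul, gp, Phi_of Λ (B2 V) w hs, SemidirectProduct.mul_left,
        SemidirectProduct.left_inr, map_one, mul_one]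
    show Multiplicative.toAdd (fl (x0 Λ (B2 V) w) (Phi Λ (B2 V) w (g * gp Λ s j)).left) = _
    rw [h1]
  · intro g j h
    have h1 : (Phi Λ (B2 V) w (g * gp Λ w j)).left = (Phi Λ (B2 V) w g).left *
        ofx (Multiplicative ℤ) _ ((Phi Λ (B2 V) w g).right • x0 Λ (B2 V) w)
          (Multiplicative.ofAdd j) := by
      rw [map_mul, gp, Phi_self, SemidirectProduct.mul_left, SemidirectProduct.left_inl,
        cpa_apply, cpm_of]
    have h2 : fl (M := fun _ : Xv Λ (B2 V) w => Multiplicative ℤ) (x0 Λ (B2 V) w)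
        ((Phi Λ (B2 V) w g).left * ofx (Multiplicative ℤ) _
          ((Phi Λ (B2 V) w g).right • x0 Λ (B2 V) w) (Multiplicative.ofAdd j)) ≠
        fl (M := fun _ : Xv Λ (B2 V) w => Multiplicative ℤ) (x0 Λ (B2 V) w)
          (Phi Λ (B2 V) w g).left := by
      intro h3
      apply h
      show Multiplicative.toAdd (fl (x0 Λ (B2 V) w) (Phi Λ (B2 V) w (g * gp Λ w j)).left) = _
      rw [h1, h3]
    obtain ⟨h3, h4⟩ := fl_of_mul _ _ h2
    have h5 : (Phi Λ (B2 V) w g).right ∈ Lv Λ (B2 V) w := by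
      have h6 : (((Phi Λ (B2 V) w g).right * 1 : Wv Λ (B2 V) w) : Xv Λ (B2 V) w) =
          ((1 : Wv Λ (B2 V) w) : Xv Λ (B2 V) w) := h3
      rw [mul_one] at h6
      have h7 := QuotientGroup.eq.1 h6.symm
      rw [inv_one, one_mul] at h7
      exact h7
    obtain ⟨z, hz⟩ := h5
    refine ⟨Multiplicative.toAdd (fl (M := fun _ : Xv Λ (B2 V) w => Multiplicative ℤ)
      (x0 Λ (B2 V) w) (Phi Λ (B2 V) w g).left),
      inc Λ (B2 V) (fun u => Λ.Adj w u) z, ⟨z, rfl⟩, ?_⟩
    have h8 : g = Psi Λ (B2 V) w (SemidirectProduct.inl (Phi Λ (B2 V) w g).left *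
        SemidirectProduct.inr (Phi Λ (B2 V) w g).right) := by
      rw [SemidirectProduct.inl_left_mul_inr_right, Psi_Phi]
    have h9 : kap Λ (B2 V) w (Phi Λ (B2 V) w g).left = gp Λ w (Multiplicative.toAdd
        (fl (M := fun _ : Xv Λ (B2 V) w => Multiplicative ℤ) (x0 Λ (B2 V) w)
          (Phi Λ (B2 V) w g).left)) := by
      conv_lhs => rw [h4]
      have h10 := kap_of' Λ (B2 V) w 1 (fl (M := fun _ : Xv Λ (B2 V) w => Multiplicative ℤ)
        (x0 Λ (B2 V) w) (Phi Λ (B2 V) w g).left)
      rw [map_one, one_mul, inv_one, mul_one] at h10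
      exact h10
    rw [map_mul, Psi_inl, Psi_inr, h9, ← hz, inc_tL] at h8
    exact h8

end Pool.Agent.H695.QC
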